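import Pool.Agent.K1H70.KQ.Stm

set_option autoImplicit false

/-! # Uniqueness of the relative invariant for framed quivers (piece R5 of the project KQ, by helper93) -/

namespace Pool.Agent.K1H93.KQ

open MvPolynomial Pool.Agent.K1H70.KR Pool.Agent.K1H70.KQ

section basics

variable {I α ρ E : Type} {R : Type} [CommRing R] [DecidableEq I] {Q : Qv I α ρ} {vt : E → I}

theorem ext_l (x : VQ Q vt → R) (a : E) (b : α) (c : E) (h : vt a = Q.t b ∧ vt c = Q.s b) :
    ext x (a, Sum.inl (b, c)) = x ⟨(a, Sum.inl (b, c)), h⟩ := dif_pos (show ok Q vt (a, Sum.inl (b, c)) from h)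

theorem ext_l0 (x : VQ Q vt → R) (a : E) (b : α) (c : E) (h : ¬ (vt a = Q.t b ∧ vt c = Q.s b)) :
    ext x (a, Sum.inl (b, c)) = 0 := dif_neg (show ¬ ok Q vt (a, Sum.inl (b, c)) from h)

theorem ext_r (x : VQ Q vt → R) (a : E) (l : ρ) (h : vt a = Q.ν l) :
    ext x (a, Sum.inr l) = x ⟨(a, Sum.inr l), h⟩ := dif_pos (show ok Q vt (a, Sum.inr l) from h)

theorem ext_r0 (x : VQ Q vt → R) (a : E) (l : ρ) (h : ¬ vt a = Q.ν l) :
    ext x (a, Sum.inr l) = 0 := dif_neg (show ¬ ok Q vt (a, Sum.inr l) from h)

variable [Fintype E] [DecidableEq E]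

theorem mA_act {G Gi : Matrix E E R} (hG : Blk vt G) (hGi : Blk vt Gi) (u : α → R) (z : ρ → R)
    (x : VQ Q vt → R) (b : α) : mA (ext (act G Gi u z x)) b = u b • (G * mA (ext x) b * Gi) := by
  ext a c
  simp only [mA, Matrix.of_apply, Matrix.smul_apply, smul_eq_mul]
  by_cases h : vt a = Q.t b ∧ vt c = Q.s b
  · rw [ext_l _ _ _ _ h]; rfl
  · rw [ext_l0 _ _ _ _ h]
    rw [Matrix.mul_apply]
    symm
    apply mul_eq_zero_of_right
    apply Finset.sum_eq_zero
    intro j _
    by_cases hj : vt j = vt c
    · apply mul_eq_zero_of_left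
      rw [Matrix.mul_apply]
      apply Finset.sum_eq_zero
      intro k _
      by_cases hk : vt a = vt k
      · apply mul_eq_zero_of_right
        rw [Matrix.of_apply]
        apply ext_l0
        rw [← hk, hj]
        exact h
      · rw [hG _ _ hk, zero_mul]
    · rw [hGi _ _ hj, mul_zero]

theorem mv_act {G : Matrix E E R} (Gi : Matrix E E R) (hG : Blk vt G) (u : α → R) (z : ρ → R)
    (x : VQ Q vt → R) (l : ρ) : mv (ext (act G Gi u z x)) l = z l • G.mulVec (mv (ext x) l) := by
  ext a
  simp only [mv, Pi.smul_apply, smul_eq_mul]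
  by_cases h : vt a = Q.ν l
  · rw [ext_r _ _ _ h]; rfl
  · rw [ext_r0 _ _ _ h]
    symm
    apply mul_eq_zero_of_right
    apply Finset.sum_eq_zero
    intro j _
    by_cases hj : vt a = vt j
    · apply mul_eq_zero_of_right
      apply ext_r0
      rw [← hj]; exact h
    · apply mul_eq_zero_of_left
      exact hG _ _ hj

theorem wv_cons (x : U α ρ E → R) (b : α) (w : List α) (l : ρ) :
    wv x (b :: w) l = (mA x b).mulVec (wv x w l) := rfl

theorem wv_nil (x : U α ρ E → R) (l : ρ) : wv x [] l = mv x l := rfl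

theorem wv_act {G Gi : Matrix E E R} (hGG : Gi * G = 1) (hG : Blk vt G) (hGi : Blk vt Gi) (u : α → R)
    (z : ρ → R) (x : VQ Q vt → R) (w : List α) (l : ρ) :
    wv (ext (act G Gi u z x)) w l = ((w.map u).prod * z l) • G.mulVec (wv (ext x) w l) := by
  induction w with
  | nil => rw [wv_nil, wv_nil, mv_act Gi hG]; simp
  | cons b w ih =>
    rw [wv_cons, wv_cons, ih, mA_act hG hGi, Matrix.smul_mulVec, Matrix.mulVec_smul,
      Matrix.mulVec_mulVec, Matrix.mul_assoc, hGG, Matrix.mul_one, ← Matrix.mulVec_mulVec, smul_smul,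
      List.map_cons, List.prod_cons, mul_assoc]

theorem wv_supp (x : VQ Q vt → R) (w : List α) (l : ρ) (i : I) (h : IsP Q w (Q.ν l) i) (c : E)
    (hc : vt c ≠ i) : wv (ext x) w l c = 0 := by
  cases w with
  | nil =>
    apply ext_r0
    intro h2
    exact hc (h2.trans h)
  | cons b w =>
    apply Finset.sum_eq_zero
    intro j _
    apply mul_eq_zero_of_left
    apply ext_l0
    rintro ⟨h2, -⟩
    exact hc (h2.trans h.2)

theorem sum_block (f : E → R) (i : I) (h : ∀ y, vt y ≠ i → f y = 0) :
    ∑ y, f y = ∑ y : {y // vt y = i}, f y.1 := by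
  rw [← Finset.sum_subtype (Finset.univ.filter fun y => vt y = i) (by simp) f, Finset.sum_filter]
  apply Finset.sum_congr rfl
  intro y _
  split_ifs with hy
  · rfl
  · exact h y hy

theorem dG_mul {A : Matrix E E R} (hA : Blk vt A) (B : Matrix E E R) (i : I) :
    dG vt (A * B) i = dG vt A i * dG vt B i := by
  unfold dG
  rw [← Matrix.det_mul]
  congr 1
  ext a c
  simp only [Matrix.of_apply, Matrix.mul_apply]
  apply sum_block
  intro y hy
  rw [hA _ _ (by rw [a.2]; exact fun h => hy h.symm), zero_mul]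

theorem dG_one (i : I) : dG vt (1 : Matrix E E R) i = 1 := by
  have h : (Matrix.of fun a c : {y : E // vt y = i} => (1 : Matrix E E R) a.1 c.1) = 1 := by
    ext a c
    simp only [Matrix.of_apply, Matrix.one_apply, Subtype.ext_iff]
  unfold dG
  rw [h, Matrix.det_one]

theorem exists_inv {K : Type} [Field K] {G : Matrix E E K} (hG : Blk vt G)
    (h : ∀ i, dG vt G i ≠ 0) : ∃ Gi : Matrix E E K, Blk vt Gi ∧ Gi * G = 1 ∧ G * Gi = 1 := by
  classical
  let B : (i : I) → Matrix {y // vt y = i} {y // vt y = i} K := fun i =>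
    Matrix.of fun a c => G a.1 c.1
  have hB : ∀ i, IsUnit (B i).det := fun i => isUnit_iff_ne_zero.mpr (h i)
  let Gi : Matrix E E K := Matrix.of fun a c =>
    if hac : vt a = vt c then (B (vt c))⁻¹ ⟨a, hac⟩ ⟨c, rfl⟩ else 0
  have hGi : ∀ (i : I) (a c : {y // vt y = i}), Gi a.1 c.1 = (B i)⁻¹ a c := by
    rintro i ⟨a, ha⟩ ⟨c, hc⟩
    subst hc
    simp only [Gi, Matrix.of_apply]
    rw [dif_pos ha]
  have h0 : Blk vt Gi := by
    intro a c hac
    simp only [Gi, Matrix.of_apply]
    rw [dif_neg hac]
  have h1 : Gi * G = 1 := by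
    ext a c
    rw [Matrix.mul_apply]
    by_cases hac : vt a = vt c
    · have h2 : ((B (vt c))⁻¹ * B (vt c)) ⟨a, hac⟩ ⟨c, rfl⟩ = (1 : Matrix E E K) a c := by
        rw [Matrix.nonsing_inv_mul _ (hB _)]
        simp only [Matrix.one_apply, Subtype.mk.injEq]
      rw [← h2, Matrix.mul_apply, sum_block (vt := vt) (i := vt c)]
      · apply Finset.sum_congr rfl
        intro y _
        rw [← hGi]; rfl
      · intro y hy
        rw [hG _ _ hy, mul_zero]
    · rw [Matrix.one_apply_ne (fun h3 => hac (by rw [h3]))]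
      apply Finset.sum_eq_zero
      intro y _
      by_cases hy : vt a = vt y
      · rw [hG y c (fun h3 => hac (hy.trans h3)), mul_zero]
      · rw [h0 _ _ hy, zero_mul]
  exact ⟨Gi, h0, h1, mul_eq_one_comm.mp h1⟩

/-- ring homomorphisms commute with the determinants -/
theorem map_ext {S : Type} [CommRing S] (f : R →+* S) (x : VQ Q vt → R) (v : U α ρ E) :
    f (ext x v) = ext (fun v => f (x v)) v := by
  unfold K1H70.KQ.ext
  split_ifs
  · rfl
  · exact map_zero f

theorem map_wv {S : Type} [CommRing S] (f : R →+* S) (x : VQ Q vt → R) (w : List α) (l : ρ) (a : E) :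
    f (wv (ext x) w l a) = wv (ext fun v => f (x v)) w l a := by
  induction w generalizing a with
  | nil => exact map_ext f x _
  | cons b w ih =>
    rw [wv_cons, wv_cons]
    simp only [Matrix.mulVec, dotProduct, map_sum, map_mul, ih, mA, Matrix.of_apply, map_ext]

theorem map_dq {S : Type} [CommRing S] (f : R →+* S) (ω : α → ℕ) (d : ρ → ℕ) (e : TQ Q ω d ≃ E)
    (i : I) (x : VQ Q vt → R) : f (dq Q vt ω d e i x) = dq Q vt ω d e i fun v => f (x v) := by
  unfold dq
  rw [RingHom.map_det]
  congr 1
  ext a c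
  simp only [RingHom.mapMatrix_apply, Matrix.map_apply, Matrix.of_apply, map_wv]

end basics

section main

variable {I α ρ E : Type} [Fintype I] [DecidableEq I] [Fintype α] [Fintype ρ] [Fintype E]
  [DecidableEq E] {Q : Qv I α ρ} {vt : E → I} {ω : α → ℕ} {d : ρ → ℕ}

open Classical in
/-- the model point -/
noncomputable def z0 (e : TQ Q ω d ≃ E) : VQ Q vt → ℂ
  | ⟨(k, Sum.inl (b, k')), _⟩ =>
    if (e.symm k).1.1 = (b :: (e.symm k').1.1.1, (e.symm k').1.1.2) then 1 else 0
  | ⟨(k, Sum.inr l), _⟩ => if (e.symm k).1.1 = ([], l) then 1 else 0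

theorem wv_z0 (e : TQ Q ω d ≃ E) (he : ∀ τ, vt (e τ) = τ.1.2) (w : List α) (l : ρ) (i : I)
    (h : IsP Q w (Q.ν l) i ∧ (w.map ω).sum < d l) :
    wv (ext (z0 e : VQ Q vt → ℂ)) w l = Pi.single (e ⟨((w, l), i), h⟩) 1 := by
  classical
  induction w generalizing i with
  | nil =>
    ext k
    rw [wv_nil]
    unfold mv
    by_cases hk : vt k = Q.ν l
    · rw [ext_r _ _ _ hk]
      simp only [z0]
      by_cases hk2 : (e.symm k).1.1 = ([], l)
      · rw [if_pos hk2]
        have : k = e ⟨(([], l), i), h⟩ := by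
          rw [← Equiv.symm_apply_eq]
          apply Subtype.ext
          apply Prod.ext
          · exact hk2
          · have h1 := he (e.symm k)
            rw [Equiv.apply_symm_apply] at h1
            rw [← h1, hk]; exact h.1
        rw [this, Pi.single_eq_same]
      · rw [if_neg hk2, Pi.single_eq_of_ne]
        rintro rfl
        apply hk2
        rw [Equiv.symm_apply_apply]
    · rw [ext_r0 _ _ _ hk, Pi.single_eq_of_ne]
      rintro rfl
      apply hk
      rw [he]
      exact h.1.symm
  | cons b w ih =>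
    have h2 : IsP Q w (Q.ν l) (Q.s b) ∧ (w.map ω).sum < d l := by
      refine ⟨h.1.1, ?_⟩
      have := h.2
      rw [List.map_cons, List.sum_cons] at this
      omega
    rw [wv_cons, ih (Q.s b) h2]
    ext k
    rw [Matrix.mulVec_single_one]
    simp only [Matrix.col_apply, mA, Matrix.of_apply]
    by_cases hk : vt k = Q.t b
    · have hk' : vt k = Q.t b ∧ vt (e ⟨((w, l), Q.s b), h2⟩) = Q.s b := ⟨hk, by rw [he]⟩
      rw [ext_l _ _ _ _ hk']
      simp only [z0, Equiv.symm_apply_apply]
      by_cases hk2 : (e.symm k).1.1 = (b :: w, l)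
      · rw [if_pos hk2]
        have : k = e ⟨((b :: w, l), i), h⟩ := by
          rw [← Equiv.symm_apply_eq]
          apply Subtype.ext
          apply Prod.ext
          · exact hk2
          · have h1 := he (e.symm k)
            rw [Equiv.apply_symm_apply] at h1
            rw [← h1, hk]; exact h.1.2
        rw [this, Pi.single_eq_same]
      · rw [if_neg hk2, Pi.single_eq_of_ne]
        rintro rfl
        apply hk2
        rw [Equiv.symm_apply_apply]
    · rw [ext_l0 _ _ _ _ (fun h3 => hk h3.1), Pi.single_eq_of_ne]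
      rintro rfl
      apply hk
      rw [he]
      exact h.1.2.symm

theorem dq_z0 (e : TQ Q ω d ≃ E) (he : ∀ τ, vt (e τ) = τ.1.2) (i : I) :
    dq Q vt ω d e i (z0 e : VQ Q vt → ℂ) = 1 := by
  have h : (Matrix.of fun a c : {y : E // vt y = i} =>
      wv (ext (z0 e : VQ Q vt → ℂ)) (e.symm a.1).1.1.1 (e.symm a.1).1.1.2 c.1) = 1 := by
    ext a c
    rw [Matrix.of_apply, wv_z0 e he _ _ _ (e.symm a.1).2]
    have : e ⟨(((e.symm a.1).1.1.1, (e.symm a.1).1.1.2), (e.symm a.1).1.2), (e.symm a.1).2⟩ = a.1 :=
      e.apply_symm_apply a.1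
    rw [this]
    simp only [Pi.single_apply, Matrix.one_apply, Subtype.ext_iff, eq_comm]
  unfold dq
  rw [h, Matrix.det_one]

/-- **The contraction.** -/
theorem contract (e : TQ Q ω d ≃ E) (he : ∀ τ, vt (e τ) = τ.1.2) (a : I → ℕ) (n : ℕ)
    (h : MvPolynomial (VQ Q vt) ℂ)
    (H : ∀ (G Gi : Matrix E E ℂ) (u : α → ℂ) (z : ρ → ℂ) (x : VQ Q vt → ℂ), Gi * G = 1 → Blk vt G →
      Blk vt Gi → (∀ b, u b ≠ 0) → (∀ l, z l ≠ 0) →
      eval (act G Gi u z x) h = chq Q vt ω d e a G u z ^ n * eval x h)
    (y : VQ Q vt → ℂ)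
    (hy : ∀ (w : List α) (l : ρ) (i : I) (hw : IsP Q w (Q.ν l) i ∧ (w.map ω).sum < d l),
      wv (ext y) w l = Pi.single (e ⟨((w, l), i), hw⟩) 1) :
    eval y h = eval (z0 e) h := by
  classical
  obtain ⟨N, hN⟩ : ∃ N, ∀ l, d l ≤ N := ⟨∑ l, d l, fun l => Finset.single_le_sum
    (fun _ _ => Nat.zero_le _) (Finset.mem_univ l)⟩
  -- the exponents
  let wt : E → ℕ := fun k => ((e.symm k).1.1.1.map ω).sum + (N - d (e.symm k).1.1.2)
  have hwt : ∀ k, wt k + (d (e.symm k).1.1.2 - ((e.symm k).1.1.1.map ω).sum) = N := by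
    intro k
    have h1 := (e.symm k).2.2
    have h2 := hN (e.symm k).1.1.2
    simp only [wt]
    omega
  let G : ℂ → Matrix E E ℂ := fun u => Matrix.diagonal fun k => (u ^ wt k)⁻¹
  let Gi : ℂ → Matrix E E ℂ := fun u => Matrix.diagonal fun k => u ^ wt k
  have hblk : ∀ D : E → ℂ, Blk vt (Matrix.diagonal D) := by
    intro D p q hpq
    apply Matrix.diagonal_apply_ne
    rintro rfl
    exact hpq rfl
  have key : ∀ u : ℂ, u ≠ 0 →
      eval (act (G u) (Gi u) (fun b => u ^ ω b) (fun l => u ^ (N - d l)) y) h = eval y h := by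
    intro u hu
    rw [H _ _ _ _ _ _ (hblk _) (hblk _) (fun b => pow_ne_zero _ hu) (fun l => pow_ne_zero _ hu)]
    · have : chq Q vt ω d e a (G u) (fun b => u ^ ω b) (fun l => u ^ (N - d l)) = 1 := by
        unfold chq
        have h1 : ∀ i, dG vt (G u) i = ∏ k : {k // vt k = i}, (u ^ wt k.1)⁻¹ := by
          intro i
          unfold dG
          rw [← Matrix.det_diagonal]
          congr 1
          ext p q
          simp only [G, Matrix.of_apply, Matrix.diagonal_apply, Subtype.ext_iff]
        have h2 : ∏ i, dG vt (G u) i ^ a i = ∏ k : E, ((u ^ wt k)⁻¹) ^ a (vt k) := by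
          rw [← Fintype.prod_fiberwise vt]
          apply Finset.prod_congr rfl
          intro i _
          rw [h1, ← Finset.prod_pow]
          apply Finset.prod_congr rfl
          intro k _
          rw [k.2]
        rw [h2, ← Finset.prod_mul_distrib]
        apply Finset.prod_eq_one
        intro k _
        rw [← mul_pow]
        have h3 : ((List.map (fun b => u ^ ω b) (e.symm k).1.1.1).prod *
            u ^ (N - d (e.symm k).1.1.2)) = u ^ wt k := by
          simp only [wt]
          rw [pow_add]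
          congr 1
          generalize (e.symm k).1.1.1 = w
          induction w with
          | nil => simp
          | cons b w ih => simp [ih, pow_add]
        rw [h3, inv_mul_cancel₀ (pow_ne_zero _ hu), one_pow]
      rw [this, one_pow, one_mul]
    · show Matrix.diagonal (fun k => u ^ wt k) * Matrix.diagonal (fun k => (u ^ wt k)⁻¹) = 1
      rw [Matrix.diagonal_mul_diagonal]
      rw [← Matrix.diagonal_one]
      congr 1
      ext k
      exact mul_inv_cancel₀ (pow_ne_zero _ hu)
  -- the form of the coordinates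
  have form : ∀ v : VQ Q vt, ∃ (g : ℂ) (r : ℕ), ∀ u : ℂ, u ≠ 0 →
      act (G u) (Gi u) (fun b => u ^ ω b) (fun l => u ^ (N - d l)) y v = z0 e v + g * u ^ (r + 1) := by
    rintro ⟨⟨k, (⟨b, k'⟩ | l)⟩, hv⟩
    · have hv' : vt k = Q.t b ∧ vt k' = Q.s b := hv
      have hact : ∀ u : ℂ, u ≠ 0 → act (G u) (Gi u) (fun b => u ^ ω b) (fun l => u ^ (N - d l)) y
          ⟨(k, Sum.inl (b, k')), hv⟩ = u ^ ω b * ((u ^ wt k)⁻¹ * mA (ext y) b k k' * u ^ wt k') := by
        intro u hu
        show u ^ ω b * (G u * mA (ext y) b * Gi u) k k' = _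
        simp only [G, Gi]
        rw [Matrix.mul_diagonal, Matrix.diagonal_mul]
      have hz : z0 e ⟨(k, Sum.inl (b, k')), hv⟩ =
        if (e.symm k).1.1 = (b :: (e.symm k').1.1.1, (e.symm k').1.1.2) then 1 else 0 := rfl
      have hp' : IsP Q (e.symm k').1.1.1 (Q.ν (e.symm k').1.1.2) (Q.s b) := by
        have h1 := (e.symm k').2.1
        have h2 := he (e.symm k')
        rw [Equiv.apply_symm_apply] at h2
        rw [← hv'.2, h2]; exact h1
      have hk1 := (e.symm k).2.2
      have hk1' := (e.symm k').2.2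
      have hk2 := hwt k
      have hk2' := hwt k'
      have hd' := hN (e.symm k').1.1.2
      by_cases hc : ω b + ((e.symm k').1.1.1.map ω).sum < d (e.symm k').1.1.2
      · -- the column is a unit vector
        have hw : IsP Q (b :: (e.symm k').1.1.1) (Q.ν (e.symm k').1.1.2) (Q.t b) ∧
            ((b :: (e.symm k').1.1.1).map ω).sum < d (e.symm k').1.1.2 := ⟨⟨hp', rfl⟩, by simpa using hc⟩
        have h1 := hy _ _ _ hw
        rw [wv_cons, hy _ _ _ (e.symm k').2] at h1
        have h2 : e ⟨(((e.symm k').1.1.1, (e.symm k').1.1.2), (e.symm k').1.2), (e.symm k').2⟩ = k' :=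
          e.apply_symm_apply k'
        rw [h2, Matrix.mulVec_single_one] at h1
        have h3 := congrFun h1 k
        simp only [Matrix.col_apply] at h3
        refine ⟨0, 0, fun u hu => ?_⟩
        rw [hact u hu, h3, hz, zero_mul, add_zero]
        by_cases hk : (e.symm k).1.1 = (b :: (e.symm k').1.1.1, (e.symm k').1.1.2)
        · rw [if_pos hk]
          have h4 : k = e ⟨((b :: (e.symm k').1.1.1, (e.symm k').1.1.2), Q.t b), hw⟩ := by
            rw [← Equiv.symm_apply_eq]
            apply Subtype.ext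
            apply Prod.ext
            · exact hk
            · have h1 := he (e.symm k)
              rw [Equiv.apply_symm_apply] at h1
              rw [← h1]; exact hv'.1
          rw [← h4, Pi.single_eq_same, mul_one]
          have h5 : wt k = ω b + wt k' := by
            simp only [wt, hk, List.map_cons, List.sum_cons]
            omega
          rw [h5, pow_add]
          field_simp
        · rw [if_neg hk, Pi.single_eq_of_ne, mul_zero, zero_mul, mul_zero]
          rintro rfl
          apply hk
          rw [Equiv.symm_apply_apply]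
      · push Not at hc
        rw [hz] at *
        refine ⟨mA (ext y) b k k', ω b + wt k' - wt k - 1, fun u hu => ?_⟩
        have hne : ¬ (e.symm k).1.1 = (b :: (e.symm k').1.1.1, (e.symm k').1.1.2) := by
          intro hk
          rw [hk] at hk1
          simp only [List.map_cons, List.sum_cons] at hk1
          omega
        rw [hact u hu, if_neg hne, zero_add]
        have h5 : ω b + wt k' = wt k + (ω b + wt k' - wt k - 1 + 1) := by omega
        have h6 : u ^ ω b * u ^ wt k' = u ^ wt k * u ^ (ω b + wt k' - wt k - 1 + 1) := by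
          rw [← pow_add, ← pow_add, ← h5]
        have h7 : u ^ wt k ≠ 0 := pow_ne_zero _ hu
        calc _ = mA (ext y) b k k' * (u ^ ω b * u ^ wt k') * (u ^ wt k)⁻¹ := by ring
          _ = _ := by rw [h6]; field_simp
    · have hv' : vt k = Q.ν l := hv
      have hact : ∀ u : ℂ, u ≠ 0 → act (G u) (Gi u) (fun b => u ^ ω b) (fun l => u ^ (N - d l)) y
          ⟨(k, Sum.inr l), hv⟩ = u ^ (N - d l) * ((u ^ wt k)⁻¹ * mv (ext y) l k) := by
        intro u hu
        show u ^ (N - d l) * (G u).mulVec (mv (ext y) l) k = _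
        simp only [G]
        rw [Matrix.mulVec_diagonal]
      have hz : z0 e ⟨(k, Sum.inr l), hv⟩ = if (e.symm k).1.1 = ([], l) then 1 else 0 := rfl
      have hk1 := (e.symm k).2.2
      have hk2 := hwt k
      have hd' := hN l
      by_cases hc : 0 < d l
      · have hw : IsP Q [] (Q.ν l) (Q.ν l) ∧ (([] : List α).map ω).sum < d l := ⟨rfl, by simpa using hc⟩
        have h1 := hy _ _ _ hw
        rw [wv_nil] at h1
        refine ⟨0, 0, fun u hu => ?_⟩
        rw [hact u hu, h1, hz, zero_mul, add_zero]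
        by_cases hk : (e.symm k).1.1 = ([], l)
        · rw [if_pos hk]
          have h4 : k = e ⟨(([], l), Q.ν l), hw⟩ := by
            rw [← Equiv.symm_apply_eq]
            apply Subtype.ext
            apply Prod.ext
            · exact hk
            · have h1 := he (e.symm k)
              rw [Equiv.apply_symm_apply] at h1
              rw [← h1]; exact hv'
          rw [← h4, Pi.single_eq_same, mul_one]
          have h5 : wt k = N - d l := by
            simp only [wt, hk, List.map_nil, List.sum_nil, zero_add]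
          rw [h5, mul_inv_cancel₀ (pow_ne_zero _ hu)]
        · rw [if_neg hk, Pi.single_eq_of_ne, mul_zero, mul_zero]
          rintro rfl
          apply hk
          rw [Equiv.symm_apply_apply]
      · refine ⟨mv (ext y) l k, N - d l - wt k - 1, fun u hu => ?_⟩
        have hne : ¬ (e.symm k).1.1 = ([], l) := by
          intro hk
          rw [hk] at hk1
          simp only at hk1
          omega
        rw [hact u hu, hz, if_neg hne, zero_add]
        have h5 : N - d l = wt k + (N - d l - wt k - 1 + 1) := by omega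
        have h6 : u ^ (N - d l) = u ^ wt k * u ^ (N - d l - wt k - 1 + 1) := by
          rw [← pow_add, ← h5]
        have h7 : u ^ wt k ≠ 0 := pow_ne_zero _ hu
        rw [h6]; field_simp
  choose g r hgr using form
  let P : Polynomial ℂ := aeval (fun v => Polynomial.C (z0 e v) + Polynomial.C (g v) *
    Polynomial.X ^ (r v + 1)) h
  have hP : ∀ u : ℂ, P.eval u = eval (fun v => z0 e v + g v * u ^ (r v + 1)) h := by
    intro u
    have h1 : (Polynomial.evalRingHom u) (aeval (fun v => Polynomial.C (z0 e v) +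
        Polynomial.C (g v) * Polynomial.X ^ (r v + 1)) h) = _ :=
      MvPolynomial.map_aeval _ _ _
    show (Polynomial.evalRingHom u) P = _
    rw [h1]
    have h2 : (Polynomial.evalRingHom u).comp (algebraMap ℂ (Polynomial ℂ)) = RingHom.id ℂ := by
      ext c
      simp
    rw [h2]
    have h3 : (fun i => (Polynomial.evalRingHom u) (Polynomial.C (z0 e i) +
        Polynomial.C (g i) * Polynomial.X ^ (r i + 1))) = fun v => z0 e v + g v * u ^ (r v + 1) := by
      ext v
      rw [Polynomial.coe_evalRingHom, Polynomial.eval_add, Polynomial.eval_mul, Polynomial.eval_C,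
        Polynomial.eval_C, Polynomial.eval_pow, Polynomial.eval_X]
    rw [h3]
    rfl
  have hc : P = Polynomial.C (eval y h) := by
    apply Polynomial.eq_of_infinite_eval_eq
    apply Set.Infinite.mono (s := {u : ℂ | u ≠ 0})
    · intro u hu
      show P.eval u = (Polynomial.C (eval y h)).eval u
      rw [Polynomial.eval_C, hP, ← key u hu]
      congr 2
      ext v
      exact (hgr v u hu).symm
    · exact Set.Finite.infinite_compl (Set.finite_singleton 0)
  have h0 := hP 0
  rw [hc, Polynomial.eval_C] at h0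
  rw [h0]
  congr 2
  ext v
  simp

end main

/-- **R5 (uniqueness of the relative invariant).** -/
theorem unq : S_UNQq := by
  intro I α ρ E _ _ _ _ _ _ Q vt ω d e he a n h H
  classical
  refine ⟨eval (z0 e) h, ?_⟩
  let P : MvPolynomial (VQ Q vt) ℂ := ∏ i, dq Q vt ω d e i X
  have hdq : ∀ (i : I) (x : VQ Q vt → ℂ), eval x (dq Q vt ω d e i X) = dq Q vt ω d e i x := by
    intro i x
    rw [map_dq]
    simp
  have hFQ : ∀ x : VQ Q vt → ℂ, eval x (FQ Q vt ω d e a X) = FQ Q vt ω d e a x := by
    intro x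
    unfold FQ
    rw [map_prod]
    simp only [map_pow, hdq]
  have hPx : ∀ x, eval x P = ∏ i, dq Q vt ω d e i x := by
    intro x
    simp only [P, map_prod, hdq]
  have hP0 : P ≠ 0 := by
    intro h0
    have h1 := hPx (z0 e)
    rw [h0, map_zero] at h1
    simp only [dq_z0 e he, Finset.prod_const_one] at h1
    exact zero_ne_one h1
  have main : ∀ x, ∏ i, dq Q vt ω d e i x ≠ 0 →
      eval x h = FQ Q vt ω d e a x ^ n * eval (z0 e) h := by
    intro x hx
    have hx' : ∀ i, dq Q vt ω d e i x ≠ 0 := fun i => Finset.prod_ne_zero_iff.mp hx i (Finset.mem_univ i)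
    let G : Matrix E E ℂ := Matrix.of fun c y => wv (ext x) (e.symm y).1.1.1 (e.symm y).1.1.2 c
    have hG : Blk vt G := by
      intro p q hpq
      simp only [G, Matrix.of_apply]
      apply wv_supp _ _ _ _ (e.symm q).2.1
      have h2 := he (e.symm q)
      rw [Equiv.apply_symm_apply] at h2
      rw [← h2]; exact hpq
    have hdG : ∀ i, dG vt G i = dq Q vt ω d e i x := by
      intro i
      unfold dG dq
      rw [← Matrix.det_transpose]
      rfl
    obtain ⟨Gi, hGi, h1, h2⟩ := exists_inv hG (fun i => by rw [hdG]; exact hx' i)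
    have h3 := H Gi G (fun _ => 1) (fun _ => 1) x h2 hGi hG (fun _ => one_ne_zero) (fun _ => one_ne_zero)
    have hy : ∀ (w : List α) (l : ρ) (i : I) (hw : IsP Q w (Q.ν l) i ∧ (w.map ω).sum < d l),
      wv (ext (act Gi G (fun _ => 1) (fun _ => 1) x)) w l = Pi.single (e ⟨((w, l), i), hw⟩) 1 := by
      intro w l i hw
      rw [wv_act h2 hGi hG]
      have h4 : ((w.map fun _ => (1 : ℂ)).prod * 1) = 1 := by simp
      rw [h4, one_smul]
      have h5 : wv (ext x) w l = G.mulVec (Pi.single (e ⟨((w, l), i), hw⟩) 1) := by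
        rw [Matrix.mulVec_single_one]
        ext c
        simp only [Matrix.col_apply, G, Matrix.of_apply, Equiv.symm_apply_apply]
      rw [h5, Matrix.mulVec_mulVec, h1, Matrix.one_mulVec]
    have h6 := contract e he a n h H _ hy
    rw [h6] at h3
    rw [h3]
    have h7 : chq Q vt ω d e a Gi (fun _ => 1) (fun _ => 1) = ∏ i, dG vt Gi i ^ a i := by
      unfold chq
      simp
    have h8 : FQ Q vt ω d e a x * chq Q vt ω d e a Gi (fun _ => 1) (fun _ => 1) = 1 := by
      rw [h7]
      unfold FQ
      rw [← Finset.prod_mul_distrib]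
      apply Finset.prod_eq_one
      intro i _
      rw [← mul_pow, ← hdG, ← dG_mul hG, h2, dG_one, one_pow]
    rw [← mul_assoc, ← mul_pow, h8, one_pow, one_mul]
  have h9 : P * (h - C (eval (z0 e) h) * (FQ Q vt ω d e a X) ^ n) = 0 := by
    apply MvPolynomial.funext
    intro x
    rw [map_mul, hPx, map_zero]
    by_cases hx : ∏ i, dq Q vt ω d e i x = 0
    · rw [hx, zero_mul]
    · rw [map_sub, map_mul, map_pow, hFQ, eval_C, main x hx]
      ring
  rcases mul_eq_zero.mp h9 with h10 | h10
  · exact absurd h10 hP0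
  · exact sub_eq_zero.mp h10

/-- the same with the (unused) hypothesis of the specification -/
theorem t_UNQ (_ : S_ACTq) : S_UNQq := unq

end Pool.Agent.K1H93.KQ
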